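import Mathlib

set_option autoImplicit false

namespace Pool.Agent.Results.MP_b9b46b_al.AllRings

universe u v w

/-- The lattice-ordered ring A is a subdirect product of totally ordered rings. -/
def IsFRing (A : Type u) [CommRing A] [Lattice A] : Prop :=
  ∃ (ι : Type v) (B : ι → Type w) (_ : ∀ i, CommRing (B i)) (_ : ∀ i, LinearOrder (B i))
    (_ : ∀ i, IsOrderedRing (B i)) (φ : ∀ i, A →+* B i),
    (∀ i, Function.Surjective (φ i)) ∧
    (∀ i a b, φ i (a ⊔ b) = max (φ i a) (φ i b)) ∧ (∀ i a b, φ i (a ⊓ b) = min (φ i a) (φ i b)) ∧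
    ∀ a b, (∀ i, φ i a = φ i b) → a = b

/-- The local-global property. -/
def LG (A : Type u) [CommRing A] : Prop :=
  ∀ (n : ℕ), 1 ≤ n → ∀ f : MvPolynomial (Fin n) A,
    (∀ (M : Ideal A) [M.IsMaximal], ∃ x : Fin n → Localization.AtPrime M,
      IsUnit (MvPolynomial.aeval x f)) →
    ∃ y : Fin n → A, IsUnit (MvPolynomial.eval y f)

variable {A : Type u} [CommRing A]

theorem cop {a b : A} : IsCoprime a b ↔ ∀ M : Ideal A, M.IsMaximal → a ∈ M → b ∉ M := by
  constructor
  · rintro ⟨r, s, h⟩ M hM ha hb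
    exact hM.ne_top ((Ideal.eq_top_iff_one _).2 (h ▸ add_mem (M.mul_mem_left r ha) (M.mul_mem_left s hb)))
  · intro h
    by_contra hc
    obtain ⟨M, hM, le⟩ := Ideal.exists_le_maximal (Ideal.span {a, b}) fun e =>
      hc (Ideal.mem_span_pair.1 ((Ideal.eq_top_iff_one _).1 e))
    exact h M hM (le (Ideal.subset_span (by simp))) (le (Ideal.subset_span (by simp)))

theorem eval_sub {n : ℕ} (f : MvPolynomial (Fin n) A) (M : Ideal A) {x y : Fin n → A}
    (h : ∀ i, x i - y i ∈ M) : MvPolynomial.eval x f - MvPolynomial.eval y f ∈ M := by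
  induction f using MvPolynomial.induction_on with
  | C a => simp
  | add p q hp hq =>
    rw [map_add, map_add, add_sub_add_comm]; exact add_mem hp hq
  | mul_X p i hp =>
    have : MvPolynomial.eval x (p * MvPolynomial.X i) - MvPolynomial.eval y (p * MvPolynomial.X i) =
        x i * (MvPolynomial.eval x p - MvPolynomial.eval y p) +
          MvPolynomial.eval y p * (x i - y i) := by simp; ring
    rw [this]; exact add_mem (M.mul_mem_left _ hp) (M.mul_mem_left _ (h i))

theorem lg_of (H : ∀ f g : A, IsCoprime f g → ∃ e : A, e * (1 - e) = 0 ∧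
    ∀ M : Ideal A, M.IsMaximal → (f ∈ M → e ∈ M) ∧ (g ∈ M → 1 - e ∈ M)) : LG A := by
  intro n _ p hp
  let I : Ideal A :=
    { carrier := {c | ∀ d, IsCoprime d c → ∃ y, IsCoprime d (MvPolynomial.eval y p)}
      zero_mem' := fun d h => ⟨0, h.of_isCoprime_of_dvd_right (dvd_zero _)⟩
      smul_mem' := fun r c hc d h => hc d h.of_mul_right_right
      add_mem' := by
        rintro c₁ c₂ h₁ h₂ d ⟨r, s, h⟩
        obtain ⟨y₂, a, b, h3⟩ := h₂ (r * d + s * c₁) ⟨1, s, by linear_combination h⟩
        obtain ⟨y₁, a', b', h4⟩ := h₁ (a * r * d + b * MvPolynomial.eval y₂ p)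
          ⟨1, a * s, by linear_combination h3⟩
        obtain ⟨e, he, h5⟩ := H (a' * a * r * d + b' * MvPolynomial.eval y₁ p)
          (MvPolynomial.eval y₂ p) ⟨1, a' * b, by linear_combination h4⟩
        refine ⟨fun i => e * y₁ i + (1 - e) * y₂ i, cop.2 fun M hM hd hy => hM.ne_top ?_⟩
        rw [Ideal.eq_top_iff_one, ← add_sub_cancel e 1]
        rcases hM.isPrime.mem_or_mem (he ▸ M.zero_mem) with h6 | h6
        · refine add_mem h6 ((h5 M hM).2 ?_)
          have := sub_mem hy (eval_sub p M (y := y₂) fun i => by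
            have : e * y₁ i + (1 - e) * y₂ i - y₂ i = (y₁ i - y₂ i) * e := by ring
            rw [this]; exact M.mul_mem_left _ h6)
          simpa using this
        · refine add_mem ((h5 M hM).1 (add_mem (M.mul_mem_left _ hd) (M.mul_mem_left _ ?_))) h6
          have := sub_mem hy (eval_sub p M (y := y₁) fun i => by
            have : e * y₁ i + (1 - e) * y₂ i - y₁ i = (y₂ i - y₁ i) * (1 - e) := by ring
            rw [this]; exact M.mul_mem_left _ h6)
          simpa using this }
  have hI : I = ⊤ := by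
    by_contra hc
    obtain ⟨M, hM, le⟩ := Ideal.exists_le_maximal I hc
    obtain ⟨x, hx⟩ := hp M
    choose y hy using fun i => M.algebraMap_residueField_surjective
      (algebraMap (Localization.AtPrime M) M.ResidueField (x i))
    have h1 : MvPolynomial.eval y p ∈ M := le fun d h => ⟨y, h⟩
    rw [← Ideal.algebraMap_residueField_eq_zero] at h1
    refine (hx.map (algebraMap (Localization.AtPrime M) M.ResidueField)).ne_zero ?_
    have h2 : algebraMap A M.ResidueField ∘ y =
        algebraMap (Localization.AtPrime M) M.ResidueField ∘ x := funext hy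
    rw [← h1, ← MvPolynomial.aeval_algebraMap_apply, ← h2,
      MvPolynomial.aeval_algebraMap_apply, MvPolynomial.aeval_eq_eval]
  obtain ⟨y, hy⟩ := ((Ideal.eq_top_iff_one _).1 hI) 0 isCoprime_one_right
  exact ⟨y, isCoprime_zero_left.1 hy⟩

/-- In every f-ring with bounded inversion, reduced or not, the local-global property is equivalent to
the quadratic unit substitution property. -/
theorem result (A : Type u) [CommRing A] [Lattice A] [IsOrderedRing A] (hA : IsFRing.{u, v, w} A)
    (hinv : ∀ x : A, 1 < x → IsUnit x) :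
    LG A ↔ ∀ a b : A, 0 ≤ a → 0 ≤ b → IsCoprime a b → ∃ u : A, IsUnit (a - b * u ^ 2) := by
  constructor
  · intro h a b _ _ hab
    obtain ⟨y, hy⟩ := h 1 le_rfl (MvPolynomial.C a - MvPolynomial.C b * MvPolynomial.X 0 ^ 2)
      fun M hM => by
        by_cases ha : a ∈ M
        · refine ⟨1, ?_⟩
          have : a - b ∈ M.primeCompl := fun e => cop.1 hab M hM ha (by simpa using sub_mem ha e)
          simpa using (IsLocalization.AtPrime.isUnit_to_map_iff (Localization.AtPrime M) M _).2 this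
        · refine ⟨0, ?_⟩
          simpa using (IsLocalization.AtPrime.isUnit_to_map_iff (Localization.AtPrime M) M _).2 ha
    exact ⟨y 0, by simpa using hy⟩
  · intro h
    obtain ⟨ι, B, _, _, _, φ, -, h1, -, h2⟩ := hA
    have le : ∀ a b : A, (∀ i, φ i a ≤ φ i b) → a ≤ b := fun a b h =>
      sup_eq_right.1 (h2 _ _ fun i => by rw [h1, max_eq_right (h i)])
    have sq : ∀ a : A, 0 ≤ a ^ 2 := fun a => le _ _ fun i => by
      rw [map_zero, map_pow]; exact sq_nonneg _
    have conv : ∀ M : Ideal A, M.IsMaximal → ∀ x y : A, 0 ≤ x → x ≤ y → y ∈ M → x ∈ M := by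
      intro M hM x y x0 xy hy
      by_contra hx
      obtain ⟨r, m, hm, e⟩ := hM.exists_inv hx
      have a1 : r ^ 2 * (x * x) ≤ r ^ 2 * (y * y) :=
        mul_le_mul_of_nonneg_left (mul_self_le_mul_self x0 xy) (sq r)
      have a2 : 1 ≤ 2 * (r ^ 2 * (y * y) + m * m) := by
        have a3 : 2 * (r ^ 2 * (y * y) + m * m) = 1 + ((r * x - m) ^ 2 +
            ((r ^ 2 * (y * y) - r ^ 2 * (x * x)) + (r ^ 2 * (y * y) - r ^ 2 * (x * x)))) := by
          linear_combination (r * x + m + 1) * e
        rw [a3]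
        exact le_add_of_nonneg_right (add_nonneg (sq _)
          (add_nonneg (sub_nonneg.2 a1) (sub_nonneg.2 a1)))
      refine hM.ne_top (M.eq_top_of_isUnit_mem (M.mul_mem_left 2 (add_mem
        (M.mul_mem_left (r ^ 2) (M.mul_mem_left y hy)) (M.mul_mem_left m hm))) ?_)
      rcases a2.eq_or_lt with a2 | a2
      · exact a2 ▸ isUnit_one
      · exact hinv _ a2
    refine lg_of fun f g hfg => ?_
    obtain ⟨t, w, hw⟩ := h (f ^ 2) (g ^ 2) (sq f) (sq g) hfg.pow
    have b1 : (w.1 ⊔ 0) - (-w.1 ⊔ 0) = w := h2 _ _ fun i => by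
      rw [map_sub, h1, h1, map_neg, map_zero]
      exact max_zero_sub_max_neg_zero_eq_self _
    have b2 : (w.1 ⊔ 0) * (-w.1 ⊔ 0) = 0 := h2 _ _ fun i => by
      rw [map_mul, h1, h1, map_neg, map_zero]
      rcases le_total (φ i w) 0 with c | c
      · rw [max_eq_right c, zero_mul]
      · rw [max_eq_right (neg_nonpos.2 c), mul_zero]
    have b3 : 1 - (w.1 ⊔ 0) * w⁻¹.1 = (-w.1 ⊔ 0) * -w⁻¹.1 := by
      linear_combination -w.mul_inv - w⁻¹.1 * b1
    refine ⟨(w.1 ⊔ 0) * w⁻¹.1, by rw [b3]; linear_combination -w⁻¹.1 ^ 2 * b2,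
      fun M hM => ⟨fun hf => ?_, fun hg => ?_⟩⟩
    · refine M.mul_mem_right _ (conv M hM _ (f ^ 2) le_sup_right (sup_le ?_ (sq f))
        (M.pow_mem_of_mem hf 2 two_pos))
      rw [hw, ← mul_pow]
      exact sub_le_self _ (sq _)
    · rw [b3]
      refine M.mul_mem_right _ (conv M hM _ ((g * t) ^ 2) le_sup_right (sup_le ?_ (sq _))
        (M.pow_mem_of_mem (M.mul_mem_right t hg) 2 two_pos))
      rw [hw, ← mul_pow, neg_sub]
      exact sub_le_self _ (sq _)

end Pool.Agent.Results.MP_b9b46b_al.AllRings
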